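import Pool.Agent.MP_41bf72_lc.Stick

/-! Without a stationary system every family has a transversal. -/

set_option autoImplicit false

namespace Pool.Agent.MP_41bf72_lc

open Cardinal Set Order

variable {ι U : Type} {l η : Cardinal.{0}}

/-- Choice along a well order. -/
theorem rec_choice {J : Type} [LinearOrder J] [WellFoundedLT J] {Q : J → Set U → U → Prop}
    (h : ∀ (i : J) (t : Iio i → U), ∃ x, Q i (range t) x) :
    ∃ t : J → U, ∀ i, Q i (t '' Iio i) (t i) := by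
  let t : J → U := wellFounded_lt.fix fun i r => (h i fun j => r j.1 j.2).choose
  refine ⟨t, fun i => ?_⟩
  have e : t i = (h i fun j => t j.1).choose := wellFounded_lt.fix_eq _ i
  rw [image_eq_range, e]
  exact (h i fun j => t j.1).choose_spec

/-- Selection inside one block. -/
theorem sel (hl : ℵ₀ ≤ l) (hlt : l < η) (hp : ∀ ν < η, ν ^ l < η) {A : ι → Set U} (h : AD l A)
    {J : Set ι} (hJ : #J ≤ η)
    {g : ι → Set U} (h1 : ∀ i, g i ⊆ A i) (h2 : ∀ i, η ≤ #(g i)) :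
    ∃ t : J → U, (∀ i : J, t i ∈ g i) ∧ ∀ j, #(A j ∩ range t : Set U) ≤ l := by
  obtain ⟨e⟩ : Nonempty (J ↪ η.ord.ToType) := by rwa [← Cardinal.le_def, mk_ord_toType]
  let _ : LinearOrder J := LinearOrder.lift' e e.injective
  have hw : WellFoundedLT J := ⟨InvImage.wf e wellFounded_lt⟩
  have h3 : ∀ i : J, #(Iio i) < η := fun i =>
    ((mk_le_mk_of_subset (s := Iio i) (t := e ⁻¹' Iic (e i)) fun j hj =>
      show e j ≤ e i from le_of_lt hj).trans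
      (mk_preimage_of_injective e _ e.injective)).trans_lt (mk_Iic_lt (hl.trans hlt.le) _)
  have h4 : ∀ (i : J) (t : Iio i → U), ∃ x, x ∈ g i ∧
      ∀ j, j ≠ i.1 → l ≤ #(A j ∩ range t : Set U) → x ∉ A j := fun i t => by
    by_contra k
    push Not at k
    have h5 : max (#(range t) ^ l) l < η :=
      max_lt (hp _ (mk_range_le.trans_lt (h3 i))) hlt
    refine h5.not_ge ((h2 i).trans ((mk_le_mk_of_subset
      (t := ⋃ j ∈ {j | j ≠ i.1 ∧ l ≤ #(A j ∩ range t : Set U)}, A j ∩ A i) fun x hx => ?_).trans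
      (mk_biUnion_le'' (hl.trans (le_max_right _ _)) (((mk_le_mk_of_subset fun j hj => hj.2).trans
        (h.count _)).trans (le_max_left _ _)) fun j hj => (h j i hj.1).le.trans (le_max_right _ _))))
    obtain ⟨j, k1, k2, k3⟩ := k x hx
    exact mem_biUnion (show j ∈ {j | j ≠ i.1 ∧ l ≤ #(A j ∩ range t : Set U)} from ⟨k1, k2⟩)
      ⟨k3, h1 i hx⟩
  obtain ⟨t, ht⟩ := rec_choice
    (Q := fun (i : J) X x => x ∈ g i ∧ ∀ j, j ≠ i.1 → l ≤ #(A j ∩ X : Set U) → x ∉ A j) h4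
  refine ⟨t, fun i => (ht i).1, fun j => ?_⟩
  have h6 : #(⋃ i ∈ {i : J | #(A j ∩ t '' Iio i : Set U) < l}, A j ∩ t '' Iic i) ≤ l :=
    chain hl (fun a b k => inter_subset_inter_right _ (image_mono (Iic_subset_Iic.2 k)))
      fun i hi => by
        refine (mk_le_mk_of_subset (t := insert (t i) (A j ∩ t '' Iio i)) ?_).trans_lt
          (mk_insert_le.trans_lt (add_lt_of_lt hl hi (one_lt_aleph0.trans_le hl)))
        rintro _ ⟨k1, a, k2, rfl⟩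
        rcases (mem_Iic.1 k2).eq_or_lt with rfl | k3
        exacts [Or.inl rfl, Or.inr ⟨k1, a, k3, rfl⟩]
  have h7 : #(t '' {i : J | i.1 = j}) ≤ l := mk_image_le.trans
    ((mk_le_one_iff_set_subsingleton.2 fun a ha b hb => Subtype.ext (ha.trans hb.symm)).trans
      (one_le_aleph0.trans hl))
  refine (mk_le_mk_of_subset ?_).trans (mk_union_le' hl h6 h7)
  rintro _ ⟨k1, i, rfl⟩
  by_cases k2 : i.1 = j
  · exact Or.inr ⟨i, k2, rfl⟩
  · exact Or.inl (mem_biUnion (not_le.1 fun k3 => (ht i).2 j (Ne.symm k2) k3 k1)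
      ⟨k1, i, self_mem_Iic, rfl⟩)

/-- Existence of an `l⁺`-transversal. -/
def TV (l : Cardinal.{0}) (A : ι → Set U) : Prop :=
  ∃ T : Set U, ∀ i, (T ∩ A i).Nonempty ∧ #(T ∩ A i : Set U) ≤ l

theorem tv_crit (c : Crit l η) (hs : ¬ Star l η) {A : Ix η → Set U} (hA : AD l A)
    (h2 : ∀ i, succ η ≤ #(A i)) : TV l A := by
  have h5 : ∀ i, ∃ g : Set U, g ⊆ A i \ ⋃ j ∈ Iio i, A j ∧ #g = η := fun i => by
    refine le_mk_iff_exists_subset.1 (not_lt.1 fun k => (lt_succ η).not_ge ?_)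
    refine (h2 i).trans ((mk_le_mk_of_subset (t := (A i \ ⋃ j ∈ Iio i, A j) ∪
      ⋃ j ∈ Iio i, A i ∩ A j) fun x hx => ?_).trans (mk_union_le' c.inf k.le
        (mk_biUnion_le'' c.inf (mk_Iio_Ix i) fun j hj => (hA i j (ne_of_gt hj)).le.trans c.lt.le)))
    by_cases k' : x ∈ ⋃ j ∈ Iio i, A j
    · obtain ⟨j, k1, k2⟩ := mem_iUnion₂.1 k'
      exact Or.inr (mem_biUnion k1 ⟨hx, k2⟩)
    · exact Or.inl ⟨hx, k'⟩
  choose g g1 g2 using h5
  obtain ⟨b, b1, b2, b3⟩ := (dich c hA fun i => (g2 i).le).resolve_left hs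
  choose t t1 t2 using fun d => sel c.hl c.lt (fun _ => c.pow) hA (b1 d)
    (fun i => (g1 i).trans sdiff_subset) fun i => (g2 i).ge
  refine ⟨range fun i => t (b i) ⟨i, rfl⟩, fun j => ⟨⟨_, ⟨j, rfl⟩, (g1 j (t1 (b j) ⟨j, rfl⟩)).1⟩,
    (mk_le_mk_of_subset ?_).trans (mk_union_le' c.hl (b3 j) (t2 (b j) j))⟩⟩
  rintro _ ⟨⟨i, rfl⟩, k⟩
  rcases lt_trichotomy (b i) (b j) with k1 | k1 | k1
  · exact Or.inl ⟨k, mem_biUnion k1 (t1 (b i) ⟨i, rfl⟩)⟩
  · refine Or.inr ⟨k, ?_⟩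
    rw [← k1]
    exact ⟨⟨i, rfl⟩, rfl⟩
  · exact ((g1 i (t1 (b i) ⟨i, rfl⟩)).2 (mem_biUnion (mem_Iio.2 (b2 j i k1)) k)).elim

theorem TV.glue {J : Type} [LinearOrder J] {A : ι → Set U} (hl : ℵ₀ ≤ l) (b : ι → J)
    (h1 : ∀ d, TV l fun j : {j | b j = d} => A j \ ⋃ i ∈ {i | b i < d}, A i)
    (h2 : ∀ j, #(A j ∩ ⋃ i ∈ {i | b i < b j}, A i : Set U) ≤ l) : TV l A := by
  choose T t using h1
  refine ⟨⋃ i, T (b i) ∩ (A i \ ⋃ j ∈ {j | b j < b i}, A j), fun j => ⟨?_,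
    (mk_le_mk_of_subset ?_).trans (mk_union_le' hl (h2 j) (t (b j) ⟨j, rfl⟩).2)⟩⟩
  · obtain ⟨x, hx⟩ := (t (b j) ⟨j, rfl⟩).1
    exact ⟨x, mem_iUnion.2 ⟨j, hx⟩, hx.2.1⟩
  rintro x ⟨k, k0⟩
  obtain ⟨i, k1, k2, k3⟩ := mem_iUnion.1 k
  rcases lt_trichotomy (b i) (b j) with k4 | k4 | k4
  · exact Or.inl ⟨k0, mem_biUnion k4 k2⟩
  · exact Or.inr ⟨k4 ▸ k1, k0, k4 ▸ k3⟩
  · exact (k3 (mem_biUnion k4 k0)).elim

end Pool.Agent.MP_41bf72_lc
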