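import Pool.Agent.MP_41bf72_lc.Basic

/-! The stationary almost disjoint system: the dichotomy and the guessing lemma. -/

set_option autoImplicit false

namespace Pool.Agent.MP_41bf72_lc

open Cardinal Set Order

variable {ι U : Type} {l η : Cardinal.{0}}

/-- A stationary almost disjoint system of large sets `E d` inside the union of the earlier
`N g`. -/
structure St (l η : Cardinal.{0}) (N : Ix η → Set U) (S : Set (Ix η)) (E : Ix η → Set U) :
    Prop where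
  sm : ∀ g, #(N g) ≤ η
  stat : ∀ h, ∃ d ∈ S, Cl h d
  sub : ∀ d ∈ S, E d ⊆ ⋃ g ∈ Iio d, N g
  big : ∀ d ∈ S, l < #(E d)
  ad : ∀ d ∈ S, ∀ d' ∈ S, d ≠ d' → #(E d ∩ E d' : Set U) < l

/-- Existence of such a system. -/
def Star (l η : Cardinal.{0}) : Prop :=
  ∃ (U : Type) (N : Ix η → Set U) (S : Set (Ix η)) (E : Ix η → Set U), St l η N S E

theorem ne_Ix (η : Cardinal.{0}) : Nonempty (Ix η) := by
  rw [← mk_ne_zero_iff, mk_Ix]; exact succ_ne_zero η

theorem Crit.few (c : Crit l η) {A : ι → Set U} (h : AD l A) {X : Set U} (hX : #X ≤ η) :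
    #{j | l < #(A j ∩ X : Set U)} ≤ η := by
  obtain ⟨W, h1, h2⟩ := c.dec U X hX
  refine (mk_le_mk_of_subset (t := ⋃ ξ ∈ (univ : Set l.out), {j | l ≤ #(A j ∩ W ξ : Set U)})
    fun j hj => ?_).trans (mk_biUnion_le'' c.inf (by simpa using c.lt.le) fun ξ _ =>
      (h.count _).trans (c.pow (h2 ξ)).le)
  obtain ⟨ξ, h3⟩ := pigeon c.hl (mk_out l).le hj (inter_subset_right.trans h1)
  exact mem_biUnion (mem_univ ξ) (h3.le.trans (mk_le_mk_of_subset fun x hx => ⟨hx.1.1, hx.2⟩))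

theorem dich (c : Crit l η) {A : Ix η → Set U} (h : AD l A) {N : Ix η → Set U}
    (hN : ∀ g, #(N g) ≤ η) : Star l η ∨ ∃ b : Ix η → Ix η, (∀ d, #{i | b i = d} ≤ η) ∧
      (∀ i j, b i < b j → i < j) ∧
      ∀ j, #(A j ∩ ⋃ i ∈ {i | b i < b j}, N i : Set U) ≤ l := by
  have h1 : ∀ g : Ix η, ∃ u, ∀ j, l < #(A j ∩ ⋃ i ∈ Iic g, N i : Set U) → j < u := fun g =>
    bdd c.inf (c.few h (mk_biUnion_le'' c.inf (mk_Iic_Ix c.inf g) fun i _ => hN i))
  choose h0 hh using h1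
  let S : Set (Ix η) := {d | Cl h0 d ∧ ∃ j, d ≤ j ∧ l < #(A j ∩ ⋃ i ∈ Iio d, N i : Set U)}
  by_cases hs : ∀ h, ∃ d ∈ S, Cl h d
  · have h2 : ∀ d ∈ S, ∃ j, d ≤ j ∧ l < #(A j ∩ ⋃ i ∈ Iio d, N i : Set U) := fun d hd => hd.2
    have hI := ne_Ix η
    choose! j j1 j2 using h2
    have h3 : ∀ d ∈ S, ∀ d' ∈ S, d < d' → j d ≠ j d' := fun d hd d' hd' k =>
      ((hh d _ ((j2 d hd).trans_le (mk_le_mk_of_subset (inter_subset_inter_right _
        (biUnion_subset_biUnion_left Iio_subset_Iic_self))))).trans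
        ((hd'.1 d k).trans_le (j1 d' hd'))).ne
    refine Or.inl ⟨U, N, S, fun d => A (j d) ∩ ⋃ i ∈ Iio d, N i, hN, hs,
      fun d _ => inter_subset_right, j2, fun d hd d' hd' k => ?_⟩
    refine (mk_le_mk_of_subset (t := A (j d) ∩ A (j d')) fun x hx => ⟨hx.1.1, hx.2.1⟩).trans_lt
      (h (j d) (j d') ?_)
    rcases lt_or_gt_of_ne k with k | k
    exacts [h3 d hd d' hd' k, (h3 d' hd' d hd k).symm]
  · push Not at hs
    obtain ⟨h1, hs⟩ := hs
    obtain ⟨b, b1, b2, b3, b4⟩ := blocks c.inf fun g => max (h0 g) (h1 g)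
    refine Or.inr ⟨b, b4, fun i j k => (b3 i j k).trans_le (b2 j), fun j => ?_⟩
    by_contra k
    refine hs (b j) ⟨fun g hg => (le_max_left _ _).trans_lt (b1 j g hg), j, b2 j, ?_⟩
      fun g hg => (le_max_right _ _).trans_lt (b1 j g hg)
    exact (not_le.1 k).trans_le (mk_le_mk_of_subset (inter_subset_inter_right _
      (biUnion_subset_biUnion_left fun i hi => b3 i j hi)))

variable {N : Ix η → Set U} {S : Set (Ix η)} {E : Ix η → Set U}

theorem Crit.pow_succ (c : Crit l η) : succ η ^ η = succ η := by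
  rw [← c.top, ← power_mul, mul_eq_self c.inf]

/-- At most `η` guesses at each point. -/
theorem guess0 (c : Crit l η) (s : St l η N S E) {Y : Type} [Nonempty Y] (hY : #Y ≤ succ η) :
    ∃ (D : Ix η → η.out → Set U) (G : Ix η → η.out → U → Y), ∀ (f : U → Y) (h' : Ix η → Ix η),
      ∃ d ∈ S, Cl h' d ∧ ∃ z, l < #(E d ∩ D d z : Set U) ∧ ∀ x ∈ D d z, G d z x = f x := by
  classical
  have hi : ℵ₀ ≤ succ η := c.inf.trans (le_succ η)
  have hI := ne_Ix η
  have hP : Nonempty (Σ g : Ix η, N g → Y) :=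
    ⟨⟨Classical.choice hI, fun _ => Classical.arbitrary Y⟩⟩
  obtain ⟨e, he⟩ := exists_surj (α := Ix η) (β := Σ g : Ix η, N g → Y) (by
    rw [mk_sigma, mk_Ix]
    refine (sum_le_sum _ (fun _ => succ η) fun g => ?_).trans
      (by rw [sum_const', mk_Ix, mul_eq_self hi])
    have h1 : #(N g → Y) = #Y ^ #(N g) := by rw [mk_arrow]; simp
    rw [h1, ← c.pow_succ]
    exact (power_le_power_right hY).trans
      (power_le_power_left (aleph0_pos.trans_le hi).ne' (s.sm g)))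
  choose W w1 w2 using fun d : Ix η => c.dec _ (Iio d) (mk_Iio_Ix d)
  have h2 : ∀ d, ∃ X : η.out → Set (Ix η), ∀ ξ, ∀ Z ⊆ W d ξ, ∃ z, X z = Z := fun d => by
    have hn : Nonempty (insert ∅ (⋃ ξ ∈ (univ : Set l.out), 𝒫 (W d ξ)) : Set (Set (Ix η))) :=
      ⟨⟨∅, mem_insert _ _⟩⟩
    obtain ⟨X, hX⟩ := exists_surj (α := η.out)
      (β := (insert ∅ (⋃ ξ ∈ (univ : Set l.out), 𝒫 (W d ξ)) : Set (Set (Ix η)))) (by
      rw [mk_out, insert_eq]
      exact mk_union_le' c.inf (by simpa using one_le_aleph0.trans c.inf)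
        (mk_biUnion_le'' c.inf (by simpa using c.lt.le) fun ξ _ => by
          rw [mk_powerset]; exact (c.sl _ (w2 d ξ)).le))
    refine ⟨fun z => (X z).1, fun ξ Z hZ => ?_⟩
    obtain ⟨z, hz⟩ := hX ⟨Z, Or.inr (mem_biUnion (mem_univ ξ) hZ)⟩
    exact ⟨z, congrArg Subtype.val hz⟩
  choose X hX using h2
  refine ⟨fun d z => {x | ∃ i ∈ X d z, x ∈ N (e i).1}, fun d z x =>
    if k : ∃ i ∈ X d z, x ∈ N (e i).1 then (e k.choose).2 ⟨x, k.choose_spec.2⟩
    else Classical.arbitrary Y, fun f h' => ?_⟩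
  choose h hh using fun g => he ⟨g, fun x => f x.1⟩
  obtain ⟨d, hd, hc'⟩ := s.stat fun g => max (h g) (h' g)
  have hc : Cl h d := fun g hg => (le_max_left _ _).trans_lt (hc' g hg)
  let Z : l.out → Set (Ix η) := fun ξ => {i | i ∈ W d ξ ∧ ∀ x : N (e i).1, (e i).2 x = f x.1}
  obtain ⟨ξ, h3⟩ := pigeon (F := fun ξ => {x | ∃ i ∈ Z ξ, x ∈ N (e i).1}) c.hl (mk_out l).le
    (s.big d hd) fun x hx => by
      obtain ⟨g, hg, h4⟩ := mem_iUnion₂.1 (s.sub d hd hx)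
      obtain ⟨ξ, h5⟩ := mem_iUnion.1 (w1 d (hc g hg))
      refine mem_iUnion.2 ⟨ξ, h g, ⟨h5, ?_⟩, ?_⟩
      · rw [hh g]; exact fun _ => rfl
      · rw [hh g]; exact h4
  obtain ⟨z, hz⟩ := hX d ξ (Z ξ) fun i hi => hi.1
  refine ⟨d, hd, fun g hg => (le_max_right _ _).trans_lt (hc' g hg), z,
    by beta_reduce; rw [hz]; exact h3, fun x hx => ?_⟩
  have k : ∃ i ∈ X d z, x ∈ N (e i).1 := hx
  have h6 : k.choose ∈ Z ξ := hz.subset k.choose_spec.1
  exact (dif_pos k).trans (h6.2 _)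

/-- One guess at each point. -/
theorem guess (c : Crit l η) (s : St l η N S E) {Y : Type} [Nonempty Y] (hY : #Y ≤ succ η) :
    ∃ (C : Ix η → Set U) (G : Ix η → U → Y), (∀ d, C d ⊆ E d) ∧ (∀ d, #(C d) ≤ succ l) ∧
      ∀ (f : U → Y) (h' : Ix η → Ix η), ∃ d ∈ S, Cl h' d ∧ #(C d) = succ l ∧
        ∀ x ∈ C d, G d x = f x := by
  obtain ⟨D, G, h⟩ := guess0 c s (Y := η.out → Y) (by
    rw [mk_arrow]; simpa using (power_le_power_right hY).trans c.pow_succ.le)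
  have h0 : ∀ d z, ∃ C ⊆ E d ∩ D d z, #C ≤ succ l ∧
      (l < #(E d ∩ D d z : Set U) → #C = succ l) := fun d z => by
    by_cases k : l < #(E d ∩ D d z : Set U)
    · obtain ⟨C, k1, k2⟩ := le_mk_iff_exists_subset.1 (succ_le_of_lt k)
      exact ⟨C, k1, k2.le, fun _ => k2⟩
    · exact ⟨∅, empty_subset _, by simp, fun k' => (k k').elim⟩
  choose C c1 c2 c3 using h0
  by_contra k
  push Not at k
  choose f h' hf using fun z => k (fun d => C d z) (fun d x => G d z x z)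
    (fun d => (c1 d z).trans inter_subset_left) fun d => c2 d z
  choose u hu using fun g => bdd c.inf (s := range fun z => h' z g)
    (mk_range_le.trans_eq (mk_out η))
  obtain ⟨d, hd, h0, z, h1, h2⟩ := h (fun x z => f z x) u
  obtain ⟨x, h3, h4⟩ := hf z d hd (fun g hg => (hu g _ ⟨z, rfl⟩).trans (h0 g hg)) (c3 d z h1)
  exact h4 (congrFun (h2 x (c1 d z h3).2) z)

end Pool.Agent.MP_41bf72_lc
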