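import Mathlib

/-! Almost disjoint families: counting, chains, critical cardinals, closure points. -/

set_option autoImplicit false

namespace Pool.Agent.MP_41bf72_lc

open Cardinal Set Order

variable {ι U : Type} {l η : Cardinal.{0}}

/-- Distinct indices give intersections of size below `l`. -/
def AD (l : Cardinal.{0}) (A : ι → Set U) : Prop := ∀ i j, i ≠ j → #(A i ∩ A j : Set U) < l

theorem AD.count {A : ι → Set U} (h : AD l A) (X : Set U) :
    #{j | l ≤ #(A j ∩ X : Set U)} ≤ #X ^ l := by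
  have h1 : ∀ j : {j | l ≤ #(A j ∩ X : Set U)}, Nonempty (l.out ↪ (A j ∩ X : Set U)) :=
    fun j => by rw [← Cardinal.le_def, mk_out]; exact j.2
  let e := fun j => Classical.choice (h1 j)
  have h2 : #X ^ l = #(l.out → X) := by rw [mk_arrow]; simp
  rw [h2]
  refine mk_le_of_injective (f := fun j x => (⟨(e j x).1, (e j x).2.2⟩ : X)) fun i j hij => ?_
  by_contra hne
  have h3 := h i j fun k => hne (Subtype.ext k)
  refine h3.not_ge ?_
  refine (mk_out l).ge.trans ?_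
  refine mk_le_of_injective (f := fun x => (⟨(e i x).1, (e i x).2.1, ?_⟩ : (A i ∩ A j : Set U)))
    fun x y hxy => (e i).injective (Subtype.ext (congrArg Subtype.val hxy :))
  have h4 : (e i x).1 = (e j x).1 := congrArg Subtype.val (congrFun hij x)
  rw [h4]
  exact (e j x).2.1

theorem mk_iUnion_le' {J : Type} {F : J → Set U} {a b : Cardinal.{0}} (hJ : #J ≤ a)
    (hF : ∀ j, #(F j) ≤ b) : #(⋃ j, F j) ≤ a * b :=
  mk_iUnion_le_sum_mk.trans ((sum_le_sum _ (fun _ => b) hF).trans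
    (by rw [sum_const']; exact mul_le_mul_left hJ b))

theorem mk_biUnion_le'' {J : Type} {s : Set J} {F : J → Set U} {a : Cardinal.{0}} (ha : ℵ₀ ≤ a)
    (hJ : #s ≤ a) (hF : ∀ j ∈ s, #(F j) ≤ a) : #(⋃ j ∈ s, F j) ≤ a := by
  rw [biUnion_eq_iUnion]
  exact (mk_iUnion_le' hJ fun j => hF j j.2).trans_eq (mul_eq_self ha)

theorem mk_union_le' {s t : Set U} {a : Cardinal.{0}} (ha : ℵ₀ ≤ a) (hs : #s ≤ a) (ht : #t ≤ a) :
    #(s ∪ t : Set U) ≤ a :=
  (mk_union_le s t).trans ((add_le_add hs ht).trans_eq (add_eq_self ha))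

/-- The union of a chain of sets of size below `l` has size at most `l`. -/
theorem chain {J : Type} [LinearOrder J] {s : Set J} {F : J → Set U} (hl : ℵ₀ ≤ l)
    (hm : Monotone F) (hF : ∀ j ∈ s, #(F j) < l) : #(⋃ j ∈ s, F j) ≤ l := by
  by_contra hc
  obtain ⟨Z, hZ, hZl⟩ := le_mk_iff_exists_subset.1 (not_le.1 hc).le
  have h1 : ∀ z : Z, ∃ j ∈ s, z.1 ∈ F j := fun z => by simpa using hZ z.2
  choose j hj hz using h1
  by_cases h2 : ∃ k ∈ s, ∀ z, j z ≤ k
  · obtain ⟨k, hk, h3⟩ := h2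
    exact (hF k hk).not_ge (hZl ▸ mk_le_mk_of_subset fun z hz' => hm (h3 ⟨z, hz'⟩) (hz ⟨z, hz'⟩))
  · push Not at h2
    refine hc ((mk_le_mk_of_subset (t := ⋃ z, F (j z)) ?_).trans
      ((mk_iUnion_le' hZl.le fun z => (hF _ (hj z)).le).trans_eq (mul_eq_self hl)))
    refine iUnion₂_subset fun k hk x hx => ?_
    obtain ⟨z, h3⟩ := h2 k hk
    exact mem_iUnion.2 ⟨z, hm h3.le hx⟩

/-- Among at most `l` sets that cover a set of size above `l` one meets it in a large set. -/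
theorem pigeon {J : Type} {E : Set U} {F : J → Set U} (hl : ℵ₀ ≤ l) (hJ : #J ≤ l) (hE : l < #E)
    (hc : E ⊆ ⋃ j, F j) : ∃ j, l < #(E ∩ F j : Set U) := by
  by_contra h
  push Not at h
  refine hE.not_ge ((mk_le_mk_of_subset (t := ⋃ j, E ∩ F j) fun x hx => ?_).trans
    ((mk_iUnion_le' hJ h).trans_eq (mul_eq_self hl)))
  obtain ⟨j, hj⟩ := mem_iUnion.1 (hc hx)
  exact mem_iUnion.2 ⟨j, hx, hj⟩

theorem exists_surj {α β : Type} [Nonempty β] (h : #β ≤ #α) :
    ∃ f : α → β, Function.Surjective f :=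
  let ⟨e⟩ := (Cardinal.le_def _ _).1 h
  ⟨Function.invFun e, Function.invFun_surjective e.injective⟩

/-- The generalized continuum hypothesis. -/
def GCH : Prop := ∀ c : Cardinal.{0}, ℵ₀ ≤ c → 2 ^ c = succ c

/-- What is used of a singular strong limit cardinal `η` of cofinality at most `l`. -/
structure Crit (l η : Cardinal.{0}) : Prop where
  hl : ℵ₀ ≤ l
  lt : l < η
  dec : ∀ (α : Type) (X : Set α), #X ≤ η →
    ∃ W : l.out → Set α, X ⊆ ⋃ ξ, W ξ ∧ ∀ ξ, #(W ξ) < η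
  sl : ∀ ν < η, 2 ^ ν < η
  top : 2 ^ η = succ η

theorem Crit.inf (h : Crit l η) : ℵ₀ ≤ η := h.hl.trans h.lt.le

theorem pow_le_two {ν : Cardinal.{0}} (hl : ℵ₀ ≤ l) : ν ^ l ≤ 2 ^ max ν l := by
  have h1 : ℵ₀ ≤ max ν l := hl.trans (le_max_right _ _)
  rw [← power_self_eq h1]
  exact (power_le_power_right (le_max_left _ _)).trans
    (power_le_power_left (aleph0_pos.trans_le h1).ne' (le_max_right _ _))

theorem Crit.pow (h : Crit l η) {ν : Cardinal.{0}} (hν : ν < η) : ν ^ l < η :=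
  (pow_le_two h.hl).trans_lt (h.sl _ (max_lt hν h.lt))

theorem mk_Iic_lt {c : Cardinal.{0}} (hc : ℵ₀ ≤ c) (i : c.ord.ToType) : #(Iic i) < c := by
  rw [← Iio_insert]
  exact mk_insert_le.trans_lt (add_lt_of_lt hc (mk_Iio_toType_ord_lt i) (one_lt_aleph0.trans_le hc))

theorem crit_of (g : GCH) (hl : ℵ₀ ≤ l) (h1 : l < η) (h2 : η.ord.cof ≤ l) : Crit l η := by
  have hi : ℵ₀ ≤ η := hl.trans h1.le
  refine ⟨hl, h1, fun α X hX => ?_, fun ν hν => ?_, g η hi⟩
  · obtain ⟨C, hC, hC'⟩ := Order.exists_cof_eq η.ord.ToType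
    rw [Ordinal.cof_toType] at hC'
    obtain ⟨e⟩ : Nonempty (X ↪ η.ord.ToType) := by rwa [← Cardinal.le_def, mk_ord_toType]
    have hn : Nonempty η.ord.ToType := by
      rw [← mk_ne_zero_iff, mk_ord_toType]; exact (aleph0_pos.trans_le hi).ne'
    have hn' : Nonempty C := let ⟨x⟩ := hn; let ⟨y, hy, _⟩ := hC x; ⟨⟨y, hy⟩⟩
    obtain ⟨f, hf⟩ := exists_surj (α := l.out) (β := C) (by rw [mk_out, hC']; exact h2)
    refine ⟨fun ξ => Subtype.val '' (e ⁻¹' Iic (f ξ).1), fun x hx => ?_, fun ξ => ?_⟩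
    · obtain ⟨y, hy, h3⟩ := hC (e ⟨x, hx⟩)
      obtain ⟨ξ, h4⟩ := hf ⟨y, hy⟩
      exact mem_iUnion.2 ⟨ξ, ⟨x, hx⟩, by simpa [h4] using h3, rfl⟩
    · exact (mk_image_le.trans (mk_preimage_of_injective _ _ e.injective)).trans_lt
        (mk_Iic_lt hi _)
  · have h3 : ℵ₀ ≤ max ν l := hl.trans (le_max_right _ _)
    refine (power_le_power_left two_ne_zero (le_max_left ν l)).trans_lt ?_
    rw [g _ h3]
    refine (succ_le_of_lt (max_lt hν h1)).lt_of_ne fun e => ?_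
    have h4 := (isRegular_succ h3).2
    rw [e] at h4
    exact (h4.trans h2).not_gt h1

/-- Above `l⁺` a cardinal is closed under the power `l` or the successor of a critical one. -/
theorem cases_pow (g : GCH) (hl : ℵ₀ ≤ l) {μ : Cardinal.{0}} (hμ : succ l < μ) :
    (∀ ν < μ, ν ^ l < μ) ∨ ∃ η, μ = succ η ∧ l < η ∧ η.ord.cof ≤ l := by
  refine or_iff_not_imp_left.2 fun h => ?_
  push Not at h
  obtain ⟨ν, h1, h2⟩ := h
  have h3 : ℵ₀ ≤ max ν l := hl.trans (le_max_right _ _)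
  have h4 : μ = succ (max ν l) := le_antisymm (h2.trans ((pow_le_two hl).trans_eq (g _ h3)))
    (succ_le_of_lt (max_lt h1 ((lt_succ l).trans hμ)))
  have h5 : l < ν := by
    by_contra h6
    rw [max_eq_right (not_lt.1 h6)] at h4
    exact hμ.ne' h4
  rw [max_eq_left h5.le] at h4 h3
  refine ⟨ν, h4, h5, ?_⟩
  by_contra h6
  refine (h2.trans ?_).not_gt h1
  have h7 : ν ^ l = #(univ : Set (l.out → ν.ord.ToType)) := by
    rw [mk_univ, mk_arrow]; simp
  rw [h7]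
  refine (mk_le_mk_of_subset (t := ⋃ b ∈ (univ : Set ν.ord.ToType),
    range fun (f : l.out → Iic b) (x : l.out) => (f x).1) fun f _ => ?_).trans
    (mk_biUnion_le'' h3 (by simp) fun b _ => mk_range_le.trans ?_)
  · have h8 : ¬ IsCofinal (range f) := fun k => h6
      (by simpa using (Order.cof_le k).trans mk_range_le)
    rw [not_isCofinal_iff] at h8
    obtain ⟨b, hb⟩ := h8
    exact mem_biUnion (mem_univ b) ⟨fun x => ⟨f x, (hb _ ⟨x, rfl⟩).le⟩, rfl⟩
  · have h9 : #(l.out → Iic b) = #(Iic b) ^ l := by rw [mk_arrow]; simp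
    rw [h9]
    refine (pow_le_two hl).trans ?_
    rw [g _ (hl.trans (le_max_right _ _))]
    exact succ_le_of_lt (max_lt (mk_Iic_lt h3 b) h5)

/-! ### Closure points -/

/-- The index set. -/
abbrev Ix (η : Cardinal.{0}) : Type := (succ η).ord.ToType

theorem mk_Ix : #(Ix η) = succ η := mk_ord_toType _

theorem mk_Iic_Ix (hη : ℵ₀ ≤ η) (i : Ix η) : #(Iic i) ≤ η :=
  lt_succ_iff.1 (mk_Iic_lt (hη.trans (le_succ η)) i)

theorem mk_Iio_Ix (i : Ix η) : #(Iio i) ≤ η := lt_succ_iff.1 (mk_Iio_toType_ord_lt i)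

theorem bdd (hη : ℵ₀ ≤ η) {s : Set (Ix η)} (hs : #s ≤ η) : ∃ b, ∀ i ∈ s, i < b := by
  by_contra h
  push Not at h
  have h1 : #(univ : Set (Ix η)) ≤ η := (mk_le_mk_of_subset (t := ⋃ i ∈ s, Iic i) fun b _ =>
    let ⟨i, hi, hb⟩ := h b; mem_biUnion hi hb).trans
      (mk_biUnion_le'' hη hs fun i _ => mk_Iic_Ix hη i)
  rw [mk_univ, mk_Ix] at h1
  exact (lt_succ η).not_ge h1

/-- `d` is closed under `h`. -/
def Cl (h : Ix η → Ix η) (d : Ix η) : Prop := ∀ g < d, h g < d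

theorem club (hη : ℵ₀ ≤ η) (h : Ix η → Ix η) (a : Ix η) : ∃ d, a < d ∧ Cl h d := by
  have h1 : ∀ x : Ix η, ∃ y, x < y ∧ ∀ g ≤ x, h g < y := fun x => by
    obtain ⟨b, hb⟩ := bdd hη (s := Iic x ∪ h '' Iic x)
      (mk_union_le' hη (mk_Iic_Ix hη x) (mk_image_le.trans (mk_Iic_Ix hη x)))
    exact ⟨b, hb x (Or.inl self_mem_Iic), fun g hg => hb _ (Or.inr ⟨g, hg, rfl⟩)⟩
  choose σ h2 h3 using h1
  have h4 : {b | ∀ n, σ^[n] a < b}.Nonempty := by
    obtain ⟨b, hb⟩ := bdd hη (s := range fun n => σ^[n] a) (mk_range_le.trans (by simpa using hη))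
    exact ⟨b, fun n => hb _ ⟨n, rfl⟩⟩
  refine ⟨wellFounded_lt.min _ h4, wellFounded_lt.min_mem _ h4 0, fun g hg => ?_⟩
  have h5 : g ∉ {b | ∀ n, σ^[n] a < b} := fun k => wellFounded_lt.not_lt_min _ k hg
  simp only [mem_ofPred_eq, not_forall, not_lt] at h5
  obtain ⟨n, hn⟩ := h5
  refine (h3 _ g hn).trans ?_
  have := wellFounded_lt.min_mem _ h4 (n + 1)
  rwa [Function.iterate_succ_apply'] at this

/-- The blocks between consecutive closure points. -/
theorem blocks (hη : ℵ₀ ≤ η) (h : Ix η → Ix η) : ∃ b : Ix η → Ix η, (∀ i, Cl h (b i)) ∧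
    (∀ i, b i ≤ i) ∧ (∀ i j, b i < b j → i < b j) ∧ ∀ d, #{i | b i = d} ≤ η := by
  have h1 : ∀ i : Ix η, {u | ∀ d, Cl h d → d ≤ i → d ≤ u}.Nonempty := fun i => ⟨i, fun _ _ k => k⟩
  let b := fun i => wellFounded_lt.min _ (h1 i)
  have h2 : ∀ i d, Cl h d → d ≤ i → d ≤ b i := fun i => wellFounded_lt.min_mem _ (h1 i)
  have h3 : ∀ i, Cl h (b i) := fun i g hg => by
    have h5 : g ∉ {u | ∀ d, Cl h d → d ≤ i → d ≤ u} := fun k => wellFounded_lt.not_lt_min _ k hg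
    simp only [mem_ofPred_eq, not_forall, not_le] at h5
    obtain ⟨d, k1, k2, k3⟩ := h5
    exact (k1 g k3).trans_le (h2 i d k1 k2)
  refine ⟨b, h3, fun i => not_lt.1 (wellFounded_lt.not_lt_min _ fun _ _ k => k),
    fun i j k => not_le.1 fun k' => k.not_ge (h2 i _ (h3 j) k'), fun d => ?_⟩
  obtain ⟨d', k1, k2⟩ := club hη h d
  refine (mk_le_mk_of_subset (t := Iio d') fun i hi => mem_Iio.2 (not_le.1 fun k => ?_)).trans
    (mk_Iio_Ix d')
  exact k1.not_ge ((h2 i d' k2 k).trans_eq hi)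

end Pool.Agent.MP_41bf72_lc
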