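import Mathlib

/-! The degree of disjunction of a family of sets. -/

set_option autoImplicit false

namespace Pool.Agent.MP_41bf72_lc

open Cardinal

/-- The least cardinal `δ` such that distinct members of `𝒜` meet in fewer than `δ` points. -/
noncomputable def deg {U : Type} (𝒜 : Set (Set U)) : Cardinal.{0} :=
  sInf {δ : Cardinal.{0} | ∀ A ∈ 𝒜, ∀ B ∈ 𝒜, A ≠ B → #(A ∩ B : Set U) < δ}

end Pool.Agent.MP_41bf72_lc
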