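import Pool.Agent.MP_41bf72_lc.Star
import Pool.Agent.MP_41bf72_lc.Defs

/-! The two families built from a stationary almost disjoint system. -/

set_option autoImplicit false

namespace Pool.Agent.MP_41bf72_lc

open Cardinal Set Order

variable {ι U : Type} {l η : Cardinal.{0}}

theorem deg_le {𝒜 : Set (Set U)} :
    deg 𝒜 ≤ l ↔ ∀ A ∈ 𝒜, ∀ B ∈ 𝒜, A ≠ B → #(A ∩ B : Set U) < l := by
  refine ⟨fun h A hA B hB k => lt_of_lt_of_le ?_ h, fun h => csInf_le' h⟩
  have hn : {δ : Cardinal.{0} | ∀ A ∈ 𝒜, ∀ B ∈ 𝒜, A ≠ B → #(A ∩ B : Set U) < δ}.Nonempty :=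
    ⟨succ #U, fun A _ B _ _ => lt_succ_iff.2 (mk_set_le _)⟩
  exact csInf_mem hn A hA B hB k

theorem AD.deg_range {A : ι → Set U} (h : AD l A) : deg (range A) ≤ l :=
  deg_le.2 (by rintro _ ⟨i, rfl⟩ _ ⟨j, rfl⟩ k; exact h i j fun e => k (e ▸ rfl))

/-- A family of `κ` sets of size `θ` with degree of disjunction `l` and no `l⁺`-transversal. -/
def NoTv (l κ θ : Cardinal.{0}) : Prop := ∃ (U : Type) (𝒜 : Set (Set U)), #𝒜 = κ ∧
  (∀ A ∈ 𝒜, #A = θ) ∧ deg 𝒜 = l ∧
  ¬ ∃ T : Set U, ∀ A ∈ 𝒜, (T ∩ A).Nonempty ∧ #(T ∩ A : Set U) < succ l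

/-- Columns and padded graphs. -/
theorem Star.cols (c : Crit l η) (s : Star l η) (Y : Type) (hY : l < #Y) (hY' : #Y ≤ succ η) :
    ∃ (ι V : Type) (A : ι → Set V), #ι ≤ succ η ∧ (∀ i, #(A i) = #Y) ∧ AD l A ∧
    ¬ ∃ T : Set V, ∀ i, (T ∩ A i).Nonempty ∧ #(T ∩ A i : Set V) < succ l := by
  classical
  obtain ⟨U, N, S, E, s⟩ := s
  have hI : Nonempty Y := mk_ne_zero_iff.1 (zero_le.trans_lt hY).ne'
  obtain ⟨D, G, d1, d2, h⟩ := guess c s hY'
  have hi : ℵ₀ ≤ succ η := c.inf.trans (le_succ η)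
  have h1 : 1 < l := one_lt_aleph0.trans_le c.hl
  have hU : #(⋃ g ∈ (univ : Set (Ix η)), N g) ≤ succ η :=
    mk_biUnion_le'' hi (by simp) fun g _ => (s.sm g).trans (le_succ η)
  have hE : ∀ d ∈ S, E d ⊆ ⋃ g ∈ (univ : Set (Ix η)), N g := fun d hd =>
    (s.sub d hd).trans (biUnion_subset_biUnion_left (subset_univ _))
  let col : U ⊕ Ix η → Set ((U ⊕ Ix η) × Y) := fun u => range fun y => (u, y)
  let gr : Ix η → U → (U ⊕ Ix η) × Y := fun d x => (Sum.inl x, G d x)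
  have hc : ∀ u, #(col u) = #Y := fun u => mk_range_eq _ fun _ _ e => congrArg Prod.snd e
  have hcg : ∀ (x : U) (d : Ix η),
      #(col (Sum.inl x) ∩ (col (Sum.inr d) ∪ gr d '' D d) : Set _) < l := fun x d => by
    refine (mk_le_mk_of_subset (t := {gr d x}) ?_).trans_lt (by simpa using h1)
    rintro _ ⟨⟨y, rfl⟩, ⟨y', e⟩ | ⟨x', -, e⟩⟩
    · exact absurd (congrArg Prod.fst e) Sum.inr_ne_inl
    · obtain rfl : x' = x := Sum.inl_injective (congrArg Prod.fst e)
      exact e.symm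
  refine ⟨(⋃ g ∈ (univ : Set (Ix η)), N g : Set U) ⊕ S, (U ⊕ Ix η) × Y,
    Sum.elim (fun x => col (Sum.inl x.1)) fun d => col (Sum.inr d.1) ∪ gr d '' D d,
    ?_, ?_, ?_, fun ⟨T, hT⟩ => ?_⟩
  · rw [mk_sum, lift_id, lift_id]
    exact (add_le_add hU ((mk_set_le _).trans_eq mk_Ix)).trans_eq (add_eq_self hi)
  · rintro (x | d)
    · exact hc _
    · exact le_antisymm (mk_union_le' (c.hl.trans hY.le) (hc _).le (mk_image_le.trans
        ((d2 d).trans (succ_le_of_lt hY))))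
        ((hc _).ge.trans (mk_le_mk_of_subset subset_union_left))
  · rintro (x | d) (x' | d') k
    · refine (mk_le_mk_of_subset (t := ∅) ?_).trans_lt (by simpa using zero_lt_one.trans h1)
      rintro _ ⟨⟨y, rfl⟩, y', e⟩
      exact k (congrArg Sum.inl (Subtype.ext (Sum.inl_injective (congrArg Prod.fst e)).symm))
    · exact hcg x d'
    · rw [inter_comm]; exact hcg x' d
    · have k' : d.1 ≠ d'.1 := fun e => k (congrArg Sum.inr (Subtype.ext e))
      refine ((mk_le_mk_of_subset (t := gr d '' (E d ∩ E d')) ?_).trans mk_image_le).trans_lt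
        (s.ad d d.2 d' d'.2 k')
      rintro _ ⟨⟨y, rfl⟩ | ⟨x, hx, rfl⟩, ⟨y', e⟩ | ⟨x', hx', e⟩⟩
      · exact absurd (Sum.inr_injective (congrArg Prod.fst e)).symm k'
      · exact absurd (congrArg Prod.fst e) Sum.inl_ne_inr
      · exact absurd (congrArg Prod.fst e) Sum.inr_ne_inl
      · obtain rfl : x' = x := Sum.inl_injective (congrArg Prod.fst e)
        exact ⟨x', ⟨d1 _ hx, d1 _ hx'⟩, rfl⟩
  have h2 : ∀ x ∈ ⋃ g ∈ (univ : Set (Ix η)), N g, ∃ y, (Sum.inl x, y) ∈ T := fun x hx => by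
    obtain ⟨_, k, y, rfl⟩ := (hT (Sum.inl ⟨x, hx⟩)).1
    exact ⟨y, k⟩
  choose! f hf using h2
  obtain ⟨d, hd, -, k1, k2⟩ := h f id
  refine (hT (Sum.inr ⟨d, hd⟩)).2.not_ge (k1.ge.trans ?_)
  rw [← mk_image_eq (f := gr d) fun _ _ e => Sum.inl_injective (congrArg Prod.fst e)]
  refine mk_le_mk_of_subset ?_
  rintro _ ⟨x, hx, rfl⟩
  refine ⟨?_, Or.inr ⟨x, hx, rfl⟩⟩
  show (Sum.inl x, G d x) ∈ T
  rw [k2 x hx]
  exact hf x (hE d hd (d1 d hx))

/-- Dummy pairs make the number of members and the degree of disjunction exact. -/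
theorem Star.noTv (c : Crit l η) (s : Star l η) (θ : Cardinal.{0}) (hθ : l < θ)
    (hθ' : θ ≤ succ η) : NoTv l (succ η) θ := by
  induction θ using Cardinal.inductionOn with | mk Y => ?_
  obtain ⟨ι, V, A, h1, h2, h3, h4⟩ := s.cols c Y hθ hθ'
  have hi : ℵ₀ ≤ succ η := c.inf.trans (le_succ η)
  have h0 : 0 < l := aleph0_pos.trans_le c.hl
  have hn : Nonempty {R : Set l.out | #R < l} := ⟨⟨∅, by simpa using h0⟩⟩
  obtain ⟨R, hR⟩ := exists_surj (α := Ix η) (β := {R : Set l.out | #R < l}) (by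
    refine (mk_set_le _).trans ?_
    rw [mk_set, mk_out, mk_Ix]
    exact (c.sl l c.lt).le.trans (le_succ η))
  let W : Type := V ⊕ (Ix η × Bool) × Y ⊕ Ix η × l.out
  let P : Ix η × Bool → Set W := fun p => range fun y => Sum.inr (Sum.inl (p, y))
  let Q : Ix η → Set W := fun i => (fun z => Sum.inr (Sum.inr (i, z))) '' (R i).1
  let B : ι ⊕ Ix η × Bool → Set W := Sum.elim (fun i => Sum.inl '' A i) fun p => P p ∪ Q p.1
  have hP : ∀ p, #(P p) = #Y := fun p => mk_range_eq _ fun _ _ e =>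
    congrArg Prod.snd (Sum.inl_injective (Sum.inr_injective e))
  have hQ : ∀ i, #(Q i) = #(R i).1 := fun i => mk_image_eq fun _ _ e =>
    congrArg Prod.snd (Sum.inr_injective (Sum.inr_injective e))
  have hB : ∀ i, #(B i) = #Y := by
    rintro (i | p)
    · exact (mk_image_eq Sum.inl_injective).trans (h2 i)
    · exact le_antisymm (mk_union_le' (c.hl.trans hθ.le) (hP p).le ((hQ _).le.trans
        ((R p.1).2.le.trans hθ.le)))
        ((hP p).ge.trans (mk_le_mk_of_subset subset_union_left))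
  have hm : ∀ i p, #(B (Sum.inl i) ∩ B (Sum.inr p) : Set W) < l := fun i p => by
    refine (mk_le_mk_of_subset (t := ∅) ?_).trans_lt (by simpa using h0)
    rintro _ ⟨⟨x, -, rfl⟩, ⟨y, e⟩ | ⟨y, -, e⟩⟩ <;> exact Sum.inr_ne_inl e
  have hA : AD l B := by
    rintro (i | p) (j | q) k
    · refine lt_of_eq_of_lt ?_ (h3 i j fun e => k (congrArg Sum.inl e))
      rw [← mk_image_eq (f := (Sum.inl : V → W)) Sum.inl_injective,
        image_inter Sum.inl_injective]
      rfl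
    · exact hm i q
    · rw [inter_comm]; exact hm j p
    · refine (mk_le_mk_of_subset (t := Q p.1) ?_).trans_lt ((hQ _).trans_lt (R p.1).2)
      rintro _ ⟨⟨y, rfl⟩ | hx, h5⟩
      · rcases h5 with ⟨y', e⟩ | ⟨y', -, e⟩
        · exact absurd (congrArg Sum.inr
            (congrArg Prod.fst (Sum.inl_injective (Sum.inr_injective e))).symm) k
        · exact absurd (Sum.inr_injective e) Sum.inr_ne_inl
      · exact hx
  have hj : Function.Injective B := fun i j e => by_contra fun k => by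
    have := hA i j k
    rw [e, inter_self, hB] at this
    exact this.not_ge hθ.le
  refine ⟨W, range B, (mk_range_eq _ hj).trans ?_, by rintro _ ⟨i, rfl⟩; exact hB i,
    le_antisymm hA.deg_range (not_lt.1 fun k => ?_), fun ⟨T, hT⟩ => h4 ⟨Sum.inl ⁻¹' T, fun i => ?_⟩⟩
  · have e : #(Ix η × Bool) = succ η := by
      rw [mk_prod, lift_id, lift_id, mk_Ix, mk_bool]
      exact mul_eq_left hi ((natCast_lt_aleph0 (n := 2)).le.trans hi) two_ne_zero
    rw [mk_sum, lift_id, lift_id, e]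
    exact add_eq_right hi h1
  · obtain ⟨Z, hZ⟩ := le_mk_iff_exists_set.1 (k.le.trans (mk_out l).ge)
    obtain ⟨i, hi'⟩ := hR ⟨Z, hZ.trans_lt k⟩
    have h5 := (deg_le (𝒜 := range B)).1 le_rfl _ (mem_range_self (Sum.inr (i, true))) _
      (mem_range_self (Sum.inr (i, false))) (hj.ne (by simp))
    refine h5.not_ge (hZ.ge.trans ?_)
    rw [show Z = (R i).1 from (congrArg Subtype.val hi').symm, ← hQ]
    exact mk_le_mk_of_subset (subset_inter subset_union_right subset_union_right)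
  · obtain ⟨⟨_, k1, x, k2, rfl⟩, k3⟩ := hT _ ⟨Sum.inl i, rfl⟩
    refine ⟨⟨x, k1, k2⟩, lt_of_le_of_lt ?_ k3⟩
    rw [← mk_image_eq (f := (Sum.inl : V → W)) Sum.inl_injective]
    refine mk_le_mk_of_subset ?_
    rintro _ ⟨y, hy, rfl⟩
    exact ⟨hy.1, y, hy.2, rfl⟩

end Pool.Agent.MP_41bf72_lc
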