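import Pool.Agent.MP_41bf72_lc.Sel

/-! Without stationary systems almost disjoint families are essentially disjoint. -/

set_option autoImplicit false

namespace Pool.Agent.MP_41bf72_lc

open Cardinal Set Order

variable {ι U : Type} {l η : Cardinal.{0}}

/-- Disjoint after removing at most `l` points from each member. -/
def ED (l : Cardinal.{0}) (A : ι → Set U) : Prop := ∃ F : ι → Set U, (∀ i, #(F i) ≤ l) ∧
  ∀ i j, i ≠ j → ∀ x ∈ A i \ F i, x ∉ A j \ F j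

theorem ED.glue {J : Type} [LinearOrder J] {A : ι → Set U} (hl : ℵ₀ ≤ l) (b : ι → J)
    (h1 : ∀ d, ED l fun i : {i | b i = d} => A i)
    (h2 : ∀ j, #(A j ∩ ⋃ i ∈ {i | b i < b j}, A i : Set U) ≤ l) : ED l A := by
  choose F f1 f2 using h1
  have h3 : ∀ i d (h : b i = d), F d ⟨i, h⟩ = F (b i) ⟨i, rfl⟩ := by rintro i _ rfl; rfl
  refine ⟨fun j => F (b j) ⟨j, rfl⟩ ∪ (A j ∩ ⋃ i ∈ {i | b i < b j}, A i),
    fun j => mk_union_le' hl (f1 _ _) (h2 j), fun i j k x hi hj => ?_⟩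
  rcases lt_trichotomy (b i) (b j) with k1 | k1 | k1
  · exact hj.2 (Or.inr ⟨hj.1, mem_biUnion k1 hi.1⟩)
  · exact f2 (b j) ⟨i, k1⟩ ⟨j, rfl⟩ (fun e => k (congrArg Subtype.val e)) x
      ⟨hi.1, fun k2 => hi.2 (Or.inl (h3 i _ k1 ▸ k2))⟩ ⟨hj.1, fun k2 => hj.2 (Or.inl k2)⟩
  · exact hi.2 (Or.inr ⟨hi.1, mem_biUnion k1 hj.1⟩)

theorem ED.small {A : ι → Set U} (hl : ℵ₀ ≤ l) (h : AD l A) (hι : #ι ≤ succ l) : ED l A := by
  obtain ⟨e⟩ : Nonempty (ι ↪ Ix l) := by rwa [← Cardinal.le_def, mk_Ix]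
  refine ED.glue hl e (fun d => ⟨fun _ => ∅, fun _ => by simp, fun i j k =>
    (k (Subtype.ext (e.injective (i.2.trans j.2.symm)))).elim⟩) fun j => ?_
  rw [inter_iUnion₂]
  exact mk_biUnion_le'' hl ((mk_preimage_of_injective e (Iio (e j)) e.injective).trans
    (mk_Iio_Ix _)) fun i hi => (h j i fun k => (k ▸ hi : e j < e j).false).le

/-- Blocks when the number of members is closed under the power `l`. -/
theorem closed_blocks {A : ι → Set U} {θ : Cardinal.{0}} (hl : ℵ₀ ≤ l) (h : AD l A) (hi : ℵ₀ ≤ θ)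
    (hA : ∀ i, #(A i) ≤ θ) (h1 : θ < #ι) (h2 : ∀ ν < #ι, ν ^ l < #ι) : ∃ b : ι → (#ι).ord.ToType,
      (∀ d, #{i | b i = d} < #ι) ∧ ∀ j, #(A j ∩ ⋃ i ∈ {i | b i < b j}, A i : Set U) ≤ l := by
  obtain ⟨e⟩ : Nonempty (ι ↪ (#ι).ord.ToType) := by rw [← Cardinal.le_def, mk_ord_toType]
  let σ : Set ι → Set ι := fun X => X ∪ {j | l ≤ #(A j ∩ ⋃ i ∈ X, A i : Set U)}
  have hm : Monotone σ := fun X Y k => union_subset_union k fun j hj => le_trans hj
    (mk_le_mk_of_subset (inter_subset_inter_right _ (biUnion_subset_biUnion_left k)))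
  let D : ℕ → (#ι).ord.ToType → Set ι := fun n a => σ^[n] (e ⁻¹' Iic a)
  have h3 : ∀ a, #(⋃ n, D n a) < #ι := fun a => by
    have k1 : ℵ₀ ≤ max #(Iic a) θ := hi.trans (le_max_right _ _)
    have k2 : max #(Iic a) θ ≤ max #(Iic a) θ ^ l :=
      self_le_power _ (one_le_aleph0.trans hl)
    have k3 : ∀ n, #(D n a) ≤ max #(Iic a) θ ^ l := fun n => by
      induction n with
      | zero => exact (mk_preimage_of_injective e _ e.injective).trans ((le_max_left _ _).trans k2)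
      | succ n ih =>
        simp only [D, Function.iterate_succ_apply']
        refine mk_union_le' (k1.trans k2) ih ((h.count _).trans ((power_le_power_right
          (mk_biUnion_le'' (k1.trans k2) ih fun i _ =>
            (hA i).trans ((le_max_right _ _).trans k2))).trans_eq ?_))
        rw [← power_mul, mul_eq_self hl]
    refine ((mk_iUnion_le' (by simpa using k1.trans k2) k3).trans_eq
      (mul_eq_self (k1.trans k2))).trans_lt (h2 _ (max_lt (mk_Iic_lt (hi.trans h1.le) a) h1))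
  have h4 : ∀ j, {a | j ∈ ⋃ n, D n a}.Nonempty := fun j => ⟨e j, mem_iUnion.2 ⟨0, le_refl (e j)⟩⟩
  have h5 : ∀ j, j ∈ ⋃ n, D n (wellFounded_lt.min _ (h4 j)) := fun j =>
    wellFounded_lt.min_mem _ (h4 j)
  refine ⟨fun j => wellFounded_lt.min _ (h4 j), fun d => (mk_le_mk_of_subset ?_).trans_lt (h3 d),
    fun j => ?_⟩
  · rintro j rfl
    exact h5 j
  refine (mk_le_mk_of_subset (t := ⋃ n, ⋃ a ∈ Iio (wellFounded_lt.min _ (h4 j)),
    A j ∩ ⋃ i ∈ D n a, A i) ?_).trans ((mk_iUnion_le' (by simpa using hl) fun n => chain hl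
      (fun a a' k => inter_subset_inter_right _ (biUnion_subset_biUnion_left
        (hm.iterate n (preimage_mono (Iic_subset_Iic.2 k))))) fun a ha => not_le.1 fun k =>
          wellFounded_lt.not_lt_min {a | j ∈ ⋃ n, D n a}
            (show j ∈ ⋃ n, D n a from mem_iUnion.2 ⟨n + 1, ?_⟩) ha).trans_eq (mul_eq_self hl))
  · rintro x ⟨k1, k2⟩
    obtain ⟨i, k3, k4⟩ := mem_iUnion₂.1 k2
    obtain ⟨n, k5⟩ := mem_iUnion.1 (h5 i)
    exact mem_iUnion.2 ⟨n, mem_biUnion (mem_Iio.2 k3) ⟨k1, mem_biUnion k5 k4⟩⟩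
  · simp only [D, Function.iterate_succ_apply']
    exact Or.inr k

/-- The filtration of a family with more members than points in a member. -/
theorem filt (g : GCH) (hl : ℵ₀ ≤ l) {A : ι → Set U} {θ : Cardinal.{0}} (h : AD l A) (hθ : l < θ)
    (hA : ∀ i, #(A i) ≤ θ) (h1 : θ < #ι)
    (hs : ∀ η, l < η → η.ord.cof ≤ l → succ η ≤ #ι → ¬ Star l η) :
    ∃ (J : Type) (_ : LinearOrder J) (b : ι → J), (∀ d, #{i | b i = d} < #ι) ∧
      ∀ j, #(A j ∩ ⋃ i ∈ {i | b i < b j}, A i : Set U) ≤ l := by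
  rcases cases_pow g hl ((succ_le_of_lt hθ).trans_lt h1) with h2 | ⟨η, h2, h3, h4⟩
  · exact ⟨_, _, closed_blocks hl h (hl.trans hθ.le) hA h1 h2⟩
  obtain ⟨e⟩ : Nonempty (Ix η ≃ ι) := Cardinal.eq.1 (mk_Ix.trans h2.symm)
  obtain ⟨b, b1, -, b2⟩ := (dich (crit_of g hl h3 h4) (A := fun i => A (e i))
    (fun i j k1 => h _ _ (e.injective.ne k1)) (N := fun i => A (e i))
    fun i => (hA _).trans (lt_succ_iff.1 (h1.trans_eq h2))).resolve_left (hs η h3 h4 h2.ge)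
  refine ⟨_, inferInstance, fun i => b (e.symm i), fun d => ((mk_preimage_of_injective e.symm
    {i | b i = d} e.symm.injective).trans (b1 d)).trans_lt (h2 ▸ lt_succ η), fun j => ?_⟩
  refine (mk_le_mk_of_subset ?_).trans (b2 (e.symm j))
  rintro x ⟨k1, k2⟩
  obtain ⟨i, k3, k4⟩ := mem_iUnion₂.1 k2
  exact ⟨by simpa using k1, mem_biUnion (x := e.symm i) k3 (by simpa using k4)⟩

theorem ed (g : GCH) (hl : ℵ₀ ≤ l) (μ : Cardinal.{0}) :
    (∀ η, l < η → η.ord.cof ≤ l → succ η ≤ μ → ¬ Star l η) →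
    ∀ (ι : Type) (A : ι → Set U), #ι = μ → (∀ i, #(A i) ≤ succ l) → AD l A → ED l A := by
  induction μ using WellFoundedLT.induction with | ind μ ih => ?_
  rintro hs ι A rfl hA h
  rcases le_or_gt #ι (succ l) with h1 | h1
  · exact ED.small hl h h1
  obtain ⟨J, _, b, b1, b2⟩ := filt g hl h (lt_succ l) hA h1 hs
  exact ED.glue hl b (fun d => ih _ (b1 d) (fun η k1 k2 k3 => hs η k1 k2 (k3.trans (b1 d).le))
    _ _ rfl (fun i => hA i) fun i j k2 => h i j fun e => k2 (Subtype.ext e)) b2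

theorem ED.tv {A : ι → Set U} (hl : ℵ₀ ≤ l) (h : ED l A) (hA : ∀ i, l < #(A i)) : TV l A := by
  obtain ⟨F, f1, f2⟩ := h
  have h1 : ∀ i, ∃ x ∈ A i, x ∉ F i := fun i => not_subset.1 fun k =>
    (hA i).not_ge ((mk_le_mk_of_subset k).trans (f1 i))
  choose x hx hy using h1
  refine ⟨range x, fun i => ⟨⟨x i, ⟨i, rfl⟩, hx i⟩, (mk_le_mk_of_subset (t := {x i} ∪ F i) ?_).trans
    (mk_union_le' hl (by simpa using one_le_aleph0.trans hl) (f1 i))⟩⟩
  rintro _ ⟨⟨j, rfl⟩, k⟩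
  by_cases k2 : j = i
  · exact Or.inl (k2 ▸ rfl)
  · exact Or.inr (by_contra fun k3 => f2 j i k2 _ ⟨hx j, hy j⟩ ⟨k, k3⟩)

/-- Families whose members have at least as many points as the family has members. -/
theorem tv_le (g : GCH) (hl : ℵ₀ ≤ l) {A : ι → Set U} (h : AD l A) (h1 : ∀ i, l < #(A i))
    (h2 : ∀ i, #ι ≤ #(A i)) (hs : ∀ η, l < η → η.ord.cof ≤ l → succ η = #ι → ¬ Star l η) :
    TV l A := by
  rcases le_or_gt #ι (succ l) with h3 | h3
  · exact (ED.small hl h h3).tv hl h1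
  rcases cases_pow g hl h3 with h4 | ⟨η, h4, h5, h6⟩
  · obtain ⟨t, t1, t2⟩ := sel hl ((lt_succ l).trans h3) h4 h (J := univ) mk_univ.le
      (fun _ => subset_rfl) h2
    exact ⟨range t, fun i => ⟨⟨_, ⟨⟨i, mem_univ i⟩, rfl⟩, t1 ⟨i, mem_univ i⟩⟩,
      by rw [inter_comm]; exact t2 i⟩⟩
  obtain ⟨e⟩ : Nonempty (Ix η ≃ ι) := Cardinal.eq.1 (mk_Ix.trans h4.symm)
  obtain ⟨T, hT⟩ := tv_crit (crit_of g hl h5 h6) (hs η h5 h6 h4.symm) (A := fun i => A (e i))
    (fun i j k1 => h _ _ (e.injective.ne k1)) fun i => h4.ge.trans (h2 _)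
  exact ⟨T, fun i => by simpa using hT (e.symm i)⟩

theorem tv (g : GCH) (hl : ℵ₀ ≤ l) {θ : Cardinal.{0}} (hθ : l < θ) (μ : Cardinal.{0}) :
    (∀ η, l < η → η.ord.cof ≤ l → succ η ≤ μ → ¬ Star l η) →
    ∀ (ι : Type) (A : ι → Set U), #ι = μ → (∀ i, #(A i) = θ) → AD l A → TV l A := by
  induction μ using WellFoundedLT.induction with | ind μ ih => ?_
  rintro hs ι A rfl hA h
  rcases le_or_gt #ι θ with h1 | h1
  · exact tv_le g hl h (fun i => hθ.trans_eq (hA i).symm) (fun i => h1.trans (hA i).ge)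
      fun η k1 k2 k3 => hs η k1 k2 k3.le
  obtain ⟨J, _, b, b1, b2⟩ := filt g hl h hθ (fun i => (hA i).le) h1 hs
  refine TV.glue hl b (fun d => ih _ (b1 d) (fun η k1 k2 k3 => hs η k1 k2 (k3.trans (b1 d).le))
    _ _ rfl ?_ fun i j k2 => (mk_le_mk_of_subset (inter_subset_inter sdiff_subset
      sdiff_subset)).trans_lt (h i j fun e => k2 (Subtype.ext e))) b2
  rintro ⟨j, rfl⟩
  refine le_antisymm ((mk_le_mk_of_subset sdiff_subset).trans (hA j).le) (not_lt.1 fun k => ?_)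
  refine ((mk_union_le _ _).trans_lt (add_lt_of_lt (hl.trans hθ.le) k
    ((b2 j).trans_lt hθ))).not_ge ((hA j).ge.trans (mk_le_mk_of_subset ?_))
  rw [sdiff_union_inter]

end Pool.Agent.MP_41bf72_lc
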