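import Pool.Agent.MP_41bf72_lc.Ed

/-! The equivalences. -/

set_option autoImplicit false

namespace Pool.Agent.MP_41bf72_lc

open Cardinal Set Order

variable {U : Type} {l : Cardinal.{0}}

theorem ad_of_deg {𝒜 : Set (Set U)} (h : deg 𝒜 ≤ l) : AD l (Subtype.val : 𝒜 → Set U) :=
  fun i j k => deg_le.1 h _ i.2 _ j.2 fun e => k (Subtype.ext e)

theorem TV.fam {𝒜 : Set (Set U)} (h : TV l (Subtype.val : 𝒜 → Set U)) :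
    ∃ T : Set U, ∀ A ∈ 𝒜, (T ∩ A).Nonempty ∧ #(T ∩ A : Set U) < succ l :=
  let ⟨T, hT⟩ := h
  ⟨T, fun A hA => ⟨(hT ⟨A, hA⟩).1, lt_succ_iff.2 (hT ⟨A, hA⟩).2⟩⟩

/-- A uniform family of at most `k` sets without `l⁺`-transversal. -/
def SideD (l k : Cardinal.{0}) : Prop := ∃ θ : Cardinal.{0}, l < θ ∧
  ∃ (U : Type) (𝒜 : Set (Set U)), #𝒜 ≤ k ∧ (∀ A ∈ 𝒜, #A = θ) ∧ deg 𝒜 ≤ l ∧
    ¬ ∃ T : Set U, ∀ A ∈ 𝒜, (T ∩ A).Nonempty ∧ #(T ∩ A : Set U) < succ l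

/-- A family of at most `k` sets of size `l⁺` that is not essentially disjoint. -/
def SideE (l k : Cardinal.{0}) : Prop := ∃ (U : Type) (𝓔 : Set (Set U)), #𝓔 ≤ k ∧
  (∀ E ∈ 𝓔, #E = succ l) ∧ deg 𝓔 ≤ l ∧ ¬ ∃ F : Set U → Set U, (∀ E ∈ 𝓔, #(F E) ≤ l) ∧
    ∀ E ∈ 𝓔, ∀ E' ∈ 𝓔, E ≠ E' → Disjoint (E \ F E) (E' \ F E')

theorem main (g : GCH) (hl : ℵ₀ ≤ l) (k : Cardinal.{0}) : List.TFAE [
    ∃ η : Cardinal.{0}, η.ord.cof ≤ l ∧ l < η ∧ succ η ≤ k ∧ NoTv l (succ η) (succ η),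
    ∃ η : Cardinal.{0}, η.ord.cof ≤ l ∧ l < η ∧ succ η ≤ k ∧
      ∀ θ : Cardinal.{0}, l < θ → θ ≤ succ η → NoTv l (succ η) θ,
    SideD l k, SideB l k, SideE l k,
    ∃ η : Cardinal.{0}, η.ord.cof ≤ l ∧ l < η ∧ succ η ≤ k ∧ ∃ 𝓢, Stick l η 𝓢,
    ∃ η : Cardinal.{0}, η.ord.cof ≤ l ∧ l < η ∧ succ η ≤ k ∧ Ladder l η] := by
  classical
  have hs : (¬ ∀ η, l < η → η.ord.cof ≤ l → succ η ≤ k → ¬ Star l η) →
      ∃ η : Cardinal.{0}, η.ord.cof ≤ l ∧ l < η ∧ succ η ≤ k ∧ ∃ 𝓢, Stick l η 𝓢 := fun h => by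
    push Not at h
    obtain ⟨η, h1, h2, h3, h4⟩ := h
    obtain ⟨𝓢, -, h5⟩ := h4.stick (crit_of g hl h1 h2)
    exact ⟨η, h2, h1, h3, 𝓢, h5⟩
  tfae_have 2 → 1 := fun ⟨η, h1, h2, h3, h4⟩ => ⟨η, h1, h2, h3, h4 _ (h2.trans (lt_succ η)) le_rfl⟩
  tfae_have 1 → 3 := fun ⟨η, _, h2, h3, U, 𝒜, k1, k2, k3, k4⟩ =>
    ⟨_, h2.trans (lt_succ η), U, 𝒜, k1.trans_le h3, k2, k3.le, k4⟩
  tfae_have 3 → 6 := fun ⟨θ, h1, U, 𝒜, k1, k2, k3, k4⟩ => hs fun h => k4 (tv g hl h1 _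
    (fun η a b c => h η a b (c.trans k1)) 𝒜 _ rfl (fun i => k2 _ i.2) (ad_of_deg k3)).fam
  tfae_have 6 → 7 := fun ⟨η, h1, h2, h3, 𝓢, h4⟩ =>
    ⟨η, h1, h2, h3, h4.ladder (crit_of g hl h2 h1)⟩
  tfae_have 7 → 2 := fun ⟨η, h1, h2, h3, h4⟩ =>
    ⟨η, h1, h2, h3, (h4.star (crit_of g hl h2 h1)).noTv (crit_of g hl h2 h1)⟩
  tfae_have 7 → 4 := fun ⟨η, h1, h2, h3, h4⟩ =>
    let ⟨U, 𝓔, k1, k2⟩ := (h4.star (crit_of g hl h2 h1)).sideB (crit_of g hl h2 h1)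
    ⟨U, 𝓔, k1.trans h3, k2⟩
  tfae_have 4 → 5 := fun ⟨U, 𝓔, k1, k2, k3, k4⟩ => ⟨U, 𝓔, k1, k2, k3, fun ⟨F, f1, f2⟩ => k4 (by
    obtain ⟨T, hT⟩ := ED.tv (A := (Subtype.val : 𝓔 → Set U)) hl ⟨fun i => F i, fun i => f1 _ i.2,
      fun i j k => disjoint_left.1 (f2 _ i.2 _ j.2 fun e => k (Subtype.ext e))⟩
      fun i => (lt_succ l).trans_eq (k2 _ i.2).symm
    refine ⟨T, fun E hE => ⟨(hT ⟨E, hE⟩).1, fun k => (lt_succ l).not_ge ?_⟩⟩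
    exact (k2 E hE).ge.trans ((mk_le_mk_of_subset (subset_inter k subset_rfl)).trans
      (hT ⟨E, hE⟩).2))⟩
  tfae_have 5 → 6 := fun ⟨U, 𝓔, k1, k2, k3, k4⟩ => hs fun h => k4 (by
    obtain ⟨F, f1, f2⟩ := ed g hl _ (fun η a b c => h η a b (c.trans k1)) 𝓔 _ rfl
      (fun i => (k2 _ i.2).le) (ad_of_deg k3)
    refine ⟨fun E => if k : E ∈ 𝓔 then F ⟨E, k⟩ else ∅, fun E hE => ?_, fun E hE E' hE' k => ?_⟩
    · simp only [dif_pos hE]; exact f1 _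
    · simp only [dif_pos hE, dif_pos hE']
      exact disjoint_left.2 (f2 ⟨E, hE⟩ ⟨E', hE'⟩ fun e => k (congrArg Subtype.val e)))
  tfae_finish

/-- Columns and padded members of a stick family. -/
theorem stick_tv (hl : ℵ₀ ≤ l) {X : Type} (hX : l < #X) {𝓢 : Set (Set X)} (h1 : #𝓢 ≤ #X)
    (h2 : ∀ E ∈ 𝓢, #E = succ l) (h3 : deg 𝓢 ≤ l) (h4 : ∀ T : Set X, #T = #X → ∃ E ∈ 𝓢, E ⊆ T) :
    ∃ (ι V : Type) (A : ι → Set V), #ι = #X ∧ (∀ i, #X ≤ #(A i)) ∧ AD l A ∧ ¬ TV l A := by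
  have hi : ℵ₀ ≤ #X := hl.trans hX.le
  have h0 : 1 < l := one_lt_aleph0.trans_le hl
  obtain ⟨e⟩ : Nonempty (X ≃ X × X) := Cardinal.eq.1 (by simpa using (mul_eq_self hi).symm)
  let 𝓑 : Set (Set X) := {E | E ∈ 𝓢 ∧ InjOn (fun z => (e z).1) E}
  let A : X ⊕ 𝓑 → Set (X ⊕ 𝓑 × X) := Sum.elim (fun x => range fun y => Sum.inl (e.symm (x, y)))
    fun B => Sum.inl '' B.1 ∪ range fun y => Sum.inr (B, y)
  have hm : ∀ x B, #(A (Sum.inl x) ∩ A (Sum.inr B) : Set _) < l := fun x B => by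
    refine (mk_le_one_iff_set_subsingleton.2 ?_).trans_lt h0
    rintro _ ⟨⟨y, rfl⟩, ⟨z, k1, k2⟩ | ⟨z, k2⟩⟩ _ ⟨⟨y', rfl⟩, ⟨z', k3, k4⟩ | ⟨z', k4⟩⟩
    · obtain rfl := Sum.inl_injective k2
      obtain rfl := Sum.inl_injective k4
      exact congrArg Sum.inl (B.2.2 k1 k3 (by simp))
    · exact absurd k4 Sum.inr_ne_inl
    · exact absurd k2 Sum.inr_ne_inl
    · exact absurd k2 Sum.inr_ne_inl
  refine ⟨_, _, A, ?_, ?_, ?_, fun ⟨T, hT⟩ => ?_⟩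
  · rw [mk_sum, lift_id, lift_id]
    exact add_eq_left hi ((mk_le_mk_of_subset fun E hE => hE.1).trans h1)
  · rintro (x | B)
    · exact (mk_range_eq _ fun _ _ k =>
        congrArg Prod.snd (e.symm.injective (Sum.inl_injective k))).ge
    · exact (mk_range_eq (fun y => (Sum.inr (B, y) : X ⊕ 𝓑 × X)) fun _ _ k =>
        congrArg Prod.snd (Sum.inr_injective k)).ge.trans (mk_le_mk_of_subset subset_union_right)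
  · rintro (x | B) (x' | B') k
    · refine (mk_le_mk_of_subset (t := ∅) ?_).trans_lt (by simpa using zero_lt_one.trans h0)
      rintro _ ⟨⟨y, rfl⟩, y', k1⟩
      exact k (congrArg Sum.inl (congrArg Prod.fst (e.symm.injective (Sum.inl_injective k1))).symm)
    · exact hm x B'
    · rw [inter_comm]; exact hm x' B
    · refine ((mk_le_mk_of_subset (t := Sum.inl '' (B.1 ∩ B'.1)) ?_).trans mk_image_le).trans_lt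
        (deg_le.1 h3 _ B.2.1 _ B'.2.1 fun k' => k (congrArg Sum.inr (Subtype.ext k')))
      rintro _ ⟨⟨z, k1, rfl⟩ | ⟨z, rfl⟩, ⟨z', k2, k3⟩ | ⟨z', k3⟩⟩
      · obtain rfl := Sum.inl_injective k3
        exact ⟨_, ⟨k1, k2⟩, rfl⟩
      · exact absurd k3 Sum.inr_ne_inl
      · exact absurd k3 Sum.inl_ne_inr
      · exact absurd (congrArg Sum.inr (congrArg Prod.fst (Sum.inr_injective k3)).symm) k
  have h5 : ∀ x, ∃ y, Sum.inl (e.symm (x, y)) ∈ T := fun x => by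
    obtain ⟨_, k, y, rfl⟩ := (hT (Sum.inl x)).1
    exact ⟨y, k⟩
  choose y hy using h5
  obtain ⟨E, k1, k2⟩ := h4 (range fun x => e.symm (x, y x))
    (mk_range_eq _ fun _ _ k => congrArg Prod.fst (e.symm.injective k))
  have k3 : E ∈ 𝓑 := ⟨k1, fun z hz z' hz' k => by
    obtain ⟨x, rfl⟩ := k2 hz
    obtain ⟨x', rfl⟩ := k2 hz'
    obtain rfl : x = x' := by simpa using k
    rfl⟩
  refine (hT (Sum.inr ⟨E, k3⟩)).2.not_gt (((lt_succ l).trans_eq (h2 E k1).symm).trans_le ?_)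
  rw [← mk_image_eq (f := (Sum.inl : X → X ⊕ 𝓑 × X)) Sum.inl_injective]
  refine mk_le_mk_of_subset ?_
  rintro _ ⟨z, hz, rfl⟩
  obtain ⟨x, rfl⟩ := k2 hz
  exact ⟨hy x, Or.inl ⟨_, hz, rfl⟩⟩

theorem levels (g : GCH) (hl : ℵ₀ ≤ l) {κ : Cardinal.{0}} (hκ : l < κ) : List.TFAE [
    ∃ (U : Type) (𝒜 : Set (Set U)), #𝒜 = κ ∧ (∀ A ∈ 𝒜, #A = κ) ∧ deg 𝒜 ≤ l ∧
      ¬ ∃ T : Set U, ∀ A ∈ 𝒜, (T ∩ A).Nonempty ∧ #(T ∩ A : Set U) < succ l,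
    ∀ θ : Cardinal.{0}, l < θ → θ ≤ κ → NoTv l κ θ,
    ∃ (X : Type) (𝓢 : Set (Set X)), #X = κ ∧ #𝓢 ≤ κ ∧ (∀ E ∈ 𝓢, #E = succ l) ∧ deg 𝓢 ≤ l ∧
      ∀ T : Set X, #T = κ → ∃ E ∈ 𝓢, E ⊆ T,
    ∃ η : Cardinal.{0}, η.ord.cof ≤ l ∧ l < η ∧ succ η = κ ∧ Ladder l η] := by
  tfae_have 2 → 1 := fun h => let ⟨U, 𝒜, k1, k2, k3, k4⟩ := h κ hκ le_rfl; ⟨U, 𝒜, k1, k2, k3.le, k4⟩
  tfae_have 1 → 3 := fun ⟨U, 𝒜, k1, k2, k3, k4⟩ => by_contra fun h => k4 (tv_le g hl (ad_of_deg k3)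
    (fun i => hκ.trans_eq (k2 _ i.2).symm) (fun i => (k1.trans (k2 _ i.2).symm).le)
    fun η a b c s => let ⟨𝓢, h4, h5⟩ := s.stick (crit_of g hl a b)
      h (c.trans k1 ▸ ⟨_, 𝓢, mk_Ix, h4, h5⟩)).fam
  tfae_have 3 → 4 := fun ⟨X, 𝓢, k1, k2, k3, k4, k5⟩ => by_contra fun h => by
    subst k1
    obtain ⟨ι, V, A, a1, a2, a3, a4⟩ := stick_tv hl hκ k2 k3 k4 k5
    exact a4 (tv_le g hl a3 (fun i => hκ.trans_le (a2 i)) (fun i => a1.trans_le (a2 i))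
      fun η a b c s => let ⟨_, _, h5⟩ := s.stick (crit_of g hl a b)
        h ⟨η, b, a, c.trans a1, h5.ladder (crit_of g hl a b)⟩)
  tfae_have 4 → 2 := fun ⟨η, h1, h2, h3, h4⟩ =>
    h3 ▸ (h4.star (crit_of g hl h2 h1)).noTv (crit_of g hl h2 h1)
  tfae_finish

end Pool.Agent.MP_41bf72_lc
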