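import Pool.Agent.MP_41bf72_lc.Cons

/-! Stick families and ladder systems. -/

set_option autoImplicit false

namespace Pool.Agent.MP_41bf72_lc

open Cardinal Set Order

variable {ι U : Type} {l η : Cardinal.{0}}

/-- A family of at most `k` sets of size `l⁺` with degree of disjunction at most `l` and without
property B. -/
def SideB (l k : Cardinal.{0}) : Prop := ∃ (U : Type) (𝓔 : Set (Set U)), #𝓔 ≤ k ∧
  (∀ E ∈ 𝓔, #E = succ l) ∧ deg 𝓔 ≤ l ∧ ¬ ∃ T : Set U, ∀ E ∈ 𝓔, (T ∩ E).Nonempty ∧ ¬ E ⊆ T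

/-- An almost disjoint family with a member inside every set of full size. -/
def Stick (l η : Cardinal.{0}) (𝓢 : Set (Set (Ix η))) : Prop := (∀ E ∈ 𝓢, #E = succ l) ∧
  deg 𝓢 ≤ l ∧ ∀ T : Set (Ix η), #T = succ η → ∃ E ∈ 𝓢, E ⊆ T

/-- An almost disjoint ladder system on a stationary set. -/
def Ladder (l η : Cardinal.{0}) : Prop := ∃ (S : Set (Ix η)) (L : Ix η → Set (Ix η)),
  IsStationary S ∧
  (∀ d ∈ S, L d ⊆ Iio d ∧ l < #(L d) ∧ ∀ a < d, #(L d ∩ Iio a : Set (Ix η)) ≤ l) ∧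
  ∀ d ∈ S, ∀ d' ∈ S, d ≠ d' → #(L d ∩ L d' : Set (Ix η)) < l

theorem Star.stick (c : Crit l η) (s : Star l η) :
    ∃ 𝓢 : Set (Set (Ix η)), #𝓢 ≤ succ η ∧ Stick l η 𝓢 := by
  classical
  obtain ⟨U, N, S, E, s⟩ := s
  have hI := ne_Ix η
  obtain ⟨C, G, d1, d2, h⟩ := guess c s (mk_Ix (η := η)).le
  have hi : ℵ₀ ≤ succ η := c.inf.trans (le_succ η)
  refine ⟨(fun d => G d '' C d) '' {d | #(G d '' C d) = succ l ∧
    ∀ g < d, #(G d '' C d ∩ G g '' C g : Set (Ix η)) < l},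
    mk_image_le.trans ((mk_set_le _).trans_eq mk_Ix), by rintro _ ⟨d, hd, rfl⟩; exact hd.1,
    deg_le.2 ?_, fun T hT => ?_⟩
  · rintro _ ⟨d, hd, rfl⟩ _ ⟨g, hg, rfl⟩ k
    rcases lt_or_gt_of_ne (fun e : d = g => k (e ▸ rfl)) with k1 | k1
    · rw [inter_comm]; exact hg.2 d k1
    · exact hd.2 g k1
  obtain ⟨e⟩ : Nonempty ((⋃ g ∈ (univ : Set (Ix η)), N g : Set U) ↪ T) := by
    rw [← Cardinal.le_def, hT]
    exact mk_biUnion_le'' hi (by simp) fun g _ => (s.sm g).trans (le_succ η)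
  obtain ⟨f, f1, f2⟩ : ∃ f : U → Ix η, InjOn f (⋃ g ∈ (univ : Set (Ix η)), N g) ∧
      ∀ x ∈ ⋃ g ∈ (univ : Set (Ix η)), N g, f x ∈ T := by
    refine ⟨fun x => if k : x ∈ ⋃ g ∈ (univ : Set (Ix η)), N g then (e ⟨x, k⟩).1
      else Classical.choice hI, fun x hx y hy k => ?_, fun x hx => ?_⟩
    · simp only [dif_pos hx, dif_pos hy] at k
      exact congrArg Subtype.val (e.injective (Subtype.ext k))
    · simp only [dif_pos hx]; exact (e _).2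
  have hE : ∀ d ∈ S, E d ⊆ ⋃ g ∈ (univ : Set (Ix η)), N g := fun d hd =>
    (s.sub d hd).trans (biUnion_subset_biUnion_left (subset_univ _))
  have h1 : ∀ g, ∃ u, ∀ d : S, l ≤ #(E d ∩ ((⋃ g ∈ (univ : Set (Ix η)), N g) ∩
      f ⁻¹' (G g '' C g)) : Set U) → d.1 < u := fun g => by
    have hA : AD l fun d : S => E d := fun d d' k => s.ad d d.2 d' d'.2 fun e => k (Subtype.ext e)
    have h2 : #((⋃ g ∈ (univ : Set (Ix η)), N g) ∩ f ⁻¹' (G g '' C g) : Set U) ≤ 2 ^ l := by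
      rw [← mk_image_eq_of_injOn f _ (f1.mono inter_subset_left)]
      exact (mk_le_mk_of_subset (by rintro _ ⟨x, hx, rfl⟩; exact hx.2)).trans
        (mk_image_le.trans ((d2 g).trans (succ_le_of_lt (cantor l))))
    obtain ⟨u, hu⟩ := bdd c.inf (mk_image_le.trans ((hA.count _).trans
      (c.pow (h2.trans_lt (c.sl l c.lt))).le) : #(Subtype.val '' _ : Set (Ix η)) ≤ η)
    exact ⟨u, fun d hd => hu _ ⟨d, hd, rfl⟩⟩
  choose u hu using h1
  obtain ⟨d, hd, k1, k2, k3⟩ := h f u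
  have k4 : C d ⊆ ⋃ g ∈ (univ : Set (Ix η)), N g := (d1 d).trans (hE d hd)
  have k5 : G d '' C d = f '' C d := image_congr k3
  refine ⟨_, ⟨d, ⟨?_, fun g hg => ?_⟩, rfl⟩, ?_⟩
  · rw [k5, mk_image_eq_of_injOn f _ (f1.mono k4), k2]
  · refine lt_of_le_of_lt ((mk_le_mk_of_subset ?_).trans (mk_image_le (f := f)))
      (not_le.1 fun k => (hu g ⟨d, hd⟩ k).not_gt (k1 g hg))
    rw [k5]
    rintro _ ⟨⟨x, hx, rfl⟩, k6⟩
    exact ⟨x, ⟨d1 d hx, k4 hx, k6⟩, rfl⟩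
  · beta_reduce
    rw [k5]
    rintro _ ⟨x, hx, rfl⟩
    exact f2 x (k4 hx)

theorem Star.sideB (c : Crit l η) (s : Star l η) : SideB l (succ η) := by
  obtain ⟨𝓢, h1, h2, h3, h4⟩ := s.stick c
  refine ⟨_, 𝓢, h1, h2, h3, fun ⟨T, hT⟩ => ?_⟩
  have h5 : ∀ X : Set (Ix η), #X ≠ succ η → #X ≤ η := fun X k =>
    lt_succ_iff.1 (((mk_set_le X).trans_eq mk_Ix).lt_of_ne k)
  have h6 := mk_union_le' c.inf (h5 T fun k => let ⟨E, k1, k2⟩ := h4 T k; (hT E k1).2 k2)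
    (h5 Tᶜ fun k => let ⟨E, k1, k2⟩ := h4 _ k; let ⟨_, k3, k4⟩ := (hT E k1).1; k2 k4 k3)
  rw [union_compl_self, mk_univ, mk_Ix] at h6
  exact (lt_succ η).not_ge h6

theorem Stick.ladder (c : Crit l η) {𝓢 : Set (Set (Ix η))} (s : Stick l η 𝓢) : Ladder l η := by
  obtain ⟨h1, h2, h3⟩ := s
  let S : Set (Ix η) := {d | ∃ E ∈ 𝓢, l < #(E ∩ Iio d : Set (Ix η)) ∧
    ∀ a < d, #(E ∩ Iio a : Set (Ix η)) ≤ l}
  have h4 : ∀ d ∈ S, ∃ E ∈ 𝓢, l < #(E ∩ Iio d : Set (Ix η)) ∧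
    ∀ a < d, #(E ∩ Iio a : Set (Ix η)) ≤ l := fun d hd => hd
  choose! E e1 e2 e3 using h4
  refine ⟨S, fun d => E d ∩ Iio d, fun C hC => ?_, fun d hd => ⟨inter_subset_right, e2 d hd,
    fun a ha => (mk_le_mk_of_subset (inter_subset_inter_left _ inter_subset_left)).trans
      (e3 d hd a ha)⟩, fun d hd d' hd' k => (mk_le_mk_of_subset
        (inter_subset_inter inter_subset_left inter_subset_left)).trans_lt
        (deg_le.1 h2 _ (e1 d hd) _ (e1 d' hd') fun e => ?_)⟩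
  · obtain ⟨F, f1, f2⟩ := h3 C (le_antisymm ((mk_set_le _).trans_eq mk_Ix)
      (succ_le_of_lt (not_le.1 fun k => by
        obtain ⟨b, hb⟩ := bdd c.inf k
        obtain ⟨y, k1, k2⟩ := hC.isCofinal b
        exact (hb y k1).not_ge k2)))
    have h5 : {a | l < #(F ∩ Iio a : Set (Ix η))}.Nonempty := by
      obtain ⟨b, hb⟩ := bdd c.inf ((h1 F f1).le.trans (succ_le_of_lt c.lt))
      exact ⟨b, ((lt_succ l).trans_eq (h1 F f1).symm).trans_le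
        (mk_le_mk_of_subset (subset_inter subset_rfl hb))⟩
    have h6 : l < #(F ∩ Iio (wellFounded_lt.min _ h5) : Set (Ix η)) := wellFounded_lt.min_mem _ h5
    have h7 : ∀ a < wellFounded_lt.min _ h5, #(F ∩ Iio a : Set (Ix η)) ≤ l := fun a ha =>
      not_lt.1 fun k => wellFounded_lt.not_lt_min {a | l < #(F ∩ Iio a : Set (Ix η))} k ha
    refine ⟨_, ⟨F, f1, h6, h7⟩, hC.isLUB_mem (inter_subset_left.trans f2)
      (nonempty_coe_sort.1 (mk_ne_zero_iff.1 (zero_le.trans_lt h6).ne'))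
      ⟨fun x hx => le_of_lt hx.2, fun u hu => not_lt.1 fun k => h6.not_ge ?_⟩⟩
    refine (mk_le_mk_of_subset (t := {u} ∪ F ∩ Iio u) fun x hx => ?_).trans
      (mk_union_le' c.hl (by simpa using one_le_aleph0.trans c.hl) (h7 u k))
    exact (hu hx).eq_or_lt.imp id fun k' => ⟨hx.1, k'⟩
  · rcases lt_or_gt_of_ne k with k | k
    · exact (e2 d hd).not_ge (e ▸ e3 d' hd' d k)
    · exact (e2 d' hd').not_ge (e ▸ e3 d hd d' k)

theorem Ladder.star (c : Crit l η) (s : Ladder l η) : Star l η := by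
  obtain ⟨S, L, h1, h2, h3⟩ := s
  refine ⟨_, Iic, S, L, mk_Iic_Ix c.inf, fun h => h1 (t := {d | Cl h d}) ⟨?_, fun a => ?_⟩,
    fun d hd x hx => mem_biUnion ((h2 d hd).1 hx) self_mem_Iic, fun d hd => (h2 d hd).2.1, h3⟩
  · intro s hs _ _ a ha g hg
    obtain ⟨x, k1, k2⟩ := (lt_isLUB_iff ha).1 hg
    exact (hs k1 g k2).trans_le (ha.1 k1)
  · obtain ⟨d, k1, k2⟩ := club c.inf h a
    exact ⟨d, k2, k1.le⟩

end Pool.Agent.MP_41bf72_lc
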